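import Pool.Agent.Helper71.SDX.Defs

/-! # SDX row K: from relaxations to factorisations -/

set_option autoImplicit false

open scoped BigOperators Matrix

namespace SDX
namespace h92

/-- separation of a point from a cone in a finite dimensional coordinate space -/
theorem cone_sep {X : Type} [Fintype X] [DecidableEq X] (C : Set (X → ℝ)) (h0 : (0 : X → ℝ) ∈ C)
    (hadd : ∀ u ∈ C, ∀ v ∈ C, u + v ∈ C) (hsm : ∀ a : ℝ, 0 ≤ a → ∀ u ∈ C, a • u ∈ C)
    (l : X → ℝ) (τ : ℝ) (hτ : 0 < τ) :
    (∃ u ∈ C, ∀ x, |u x - l x| ≤ τ) ∨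
      ∃ w : X → ℝ, (∀ u ∈ C, 0 ≤ ∑ x, w x * u x) ∧ ∑ x, w x * l x < 0 := by
  by_cases hl : l ∈ closure C
  · left
    obtain ⟨u, hu, hd⟩ := Metric.mem_closure_iff.1 hl τ hτ
    refine ⟨u, hu, fun x => ?_⟩
    have h1 : dist (l x) (u x) ≤ dist l u := dist_le_pi_dist l u x
    rw [Real.dist_eq] at h1
    rw [abs_sub_comm]
    linarith
  · right
    have hconv : Convex ℝ C := by
      intro u hu v hv a b ha hb _
      exact hadd _ (hsm a ha u hu) _ (hsm b hb v hv)
    obtain ⟨f, c, h1, h2⟩ := geometric_hahn_banach_closed_point hconv.closure isClosed_closure hl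
    have hc : 0 < c := by
      have := h1 0 (subset_closure h0)
      rwa [map_zero] at this
    have hf : ∀ v : X → ℝ, f v = ∑ x, f (Pi.single x 1) * v x := by
      intro v
      have hv : v = ∑ x, v x • (Pi.single x (1 : ℝ) : X → ℝ) := by
        ext y
        rw [Finset.sum_apply]
        simp [Pi.single_apply]
      conv_lhs => rw [hv]
      rw [map_sum]
      refine Finset.sum_congr rfl fun x _ => ?_
      rw [map_smul, smul_eq_mul, mul_comm]
    have hle : ∀ u ∈ C, f u ≤ 0 := by
      intro u hu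
      by_contra hcon
      push Not at hcon
      have h3 := h1 ((c / f u) • u) (subset_closure (hsm _ (by positivity) u hu))
      rw [map_smul, smul_eq_mul, div_mul_cancel₀ _ hcon.ne'] at h3
      exact lt_irrefl _ h3
    refine ⟨fun x => - f (Pi.single x 1), fun u hu => ?_, ?_⟩
    · have h3 := hle u hu
      rw [hf] at h3
      have h4 : ∑ x, -f (Pi.single x 1) * u x = - ∑ x, f (Pi.single x 1) * u x := by
        rw [← Finset.sum_neg_distrib]
        exact Finset.sum_congr rfl fun x _ => by ring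
      rw [h4]
      linarith
    · have h4 : ∑ x, -f (Pi.single x 1) * l x = - ∑ x, f (Pi.single x 1) * l x := by
        rw [← Finset.sum_neg_distrib]
        exact Finset.sum_congr rfl fun x _ => by ring
      rw [h4, ← hf]
      linarith

/-- a symmetric matrix with nonnegative trace against psd matrices is psd -/
theorem psd_of_trace {k : ℕ} (A : Matrix (Fin k) (Fin k) ℝ) (hA : A.IsHermitian)
    (h : ∀ P : Matrix (Fin k) (Fin k) ℝ, P.PosSemidef → 0 ≤ (P * A).trace) : A.PosSemidef := by
  refine Matrix.PosSemidef.of_dotProduct_mulVec_nonneg hA fun v => ?_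
  have h1 := h (Matrix.vecMulVec v (star v)) (Matrix.posSemidef_vecMulVec_self_star v)
  have h2 : (Matrix.vecMulVec v (star v) * A).trace = star v ⬝ᵥ (A *ᵥ v) := by
    rw [Matrix.trace, dotProduct]
    simp only [Matrix.diag_apply, Matrix.mul_apply, Matrix.vecMulVec_apply, Matrix.mulVec,
      dotProduct, Finset.mul_sum]
    rw [Finset.sum_comm]
    refine Finset.sum_congr rfl fun i _ => Finset.sum_congr rfl fun j _ => ?_
    ring
  rwa [h2] at h1

/-- weighted sums with total weight one stay in an affine subspace -/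
theorem mem_comb {X V : Type} [Fintype X] [AddCommGroup V] [Module ℝ V]
    (𝓐 : AffineSubspace ℝ V) (p : X → V) (hp : ∀ x, p x ∈ 𝓐) (u : X → ℝ)
    (hu : ∑ x, u x = 1) : ∑ x, u x • p x ∈ 𝓐 := by
  have h1 := affineCombination_mem_affineSpan (k := ℝ) (s := Finset.univ) (w := u) hu p
  rw [Finset.affineCombination_eq_linear_combination _ _ _ hu] at h1
  exact (affineSpan_le.2 (by rintro _ ⟨x, rfl⟩; exact hp x)) h1

end h92

open h92 in
theorem factor {n r m b : ℕ}
    (𝓐 : AffineSubspace ℝ (Matrix (Fin n) (Fin n) ℝ × Matrix (Fin r) (Fin r) ℝ))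
    (hrel : ∀ x : Fin n → ℝ, (∀ i, x i = 1 ∨ x i = -1) → ∃ X : Matrix (Fin r) (Fin r) ℝ,
      X.PosSemidef ∧ (Matrix.vecMulVec x x, X) ∈ 𝓐)
    (c₀ : ℝ) (e : Fin m × Fin b ↪ Fin n)
    (hno : ∀ S : Fin m → Fin b, ∀ (Y : Matrix (Fin n) (Fin n) ℝ) (X : Matrix (Fin r) (Fin r) ℝ),
      X.PosSemidef → (Y, X) ∈ 𝓐 → Y.IsSymm → (∀ i, Y i i = 1) →
      c₀ ≤ ∑ i, ∑ j, Y (e (i, S i)) (e (j, S j)))
    (τ : ℝ) (hτ : 0 < τ) :
    ∃ (P : (Fin m → Fin b) → Matrix (Fin (r + 1)) (Fin (r + 1)) ℝ)
      (Q : (Fin m × Fin b → Bool) → Matrix (Fin (r + 1)) (Fin (r + 1)) ℝ),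
      (∀ S, (P S).PosSemidef) ∧ (∀ x, (Q x).PosSemidef) ∧
      ∀ S x, |(P S * Q x).trace - (ssum (rs S x) ^ 2 - c₀)| ≤ τ := by
  classical
  let z : (Fin m × Fin b → Bool) → Fin n → ℝ :=
    fun x => Function.extend e (fun p => sg (x p)) (fun _ => 1)
  have hz : ∀ x p, z x (e p) = sg (x p) := fun x p => e.injective.extend_apply _ _ p
  have hz1 : ∀ x k, z x k = 1 ∨ z x k = -1 := by
    intro x k
    by_cases hk : ∃ p, e p = k
    · obtain ⟨p, rfl⟩ := hk
      rw [hz]
      unfold sg
      cases x p <;> simp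
    · left
      exact Function.extend_apply' _ _ _ hk
  choose X hX hXA using fun x => hrel (z x) (hz1 x)
  let Z : (Fin m × Fin b → Bool) → Matrix (Fin (r + 1)) (Fin (r + 1)) ℝ :=
    fun x => (Matrix.fromBlocks (X x) 0 0 (1 : Matrix (Fin 1) (Fin 1) ℝ)).submatrix
      finSumFinEquiv.symm finSumFinEquiv.symm
  have hZ : ∀ x, (Z x).PosSemidef := by
    intro x
    refine Matrix.PosSemidef.submatrix ?_ _
    refine Matrix.PosSemidef.of_dotProduct_mulVec_nonneg ?_ ?_
    · exact Matrix.IsHermitian.fromBlocks (hX x).isHermitian (by simp)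
        Matrix.isHermitian_one
    · intro v
      have h1 := (hX x).dotProduct_mulVec_nonneg (v ∘ Sum.inl)
      have h2 : star v ⬝ᵥ (Matrix.fromBlocks (X x) 0 0 (1 : Matrix (Fin 1) (Fin 1) ℝ) *ᵥ v)
          = star (v ∘ Sum.inl) ⬝ᵥ (X x *ᵥ (v ∘ Sum.inl))
            + ∑ i, v (Sum.inr i) * v (Sum.inr i) := by
        rw [Matrix.fromBlocks_mulVec, dotProduct, Fintype.sum_sum_type]
        simp [dotProduct]
      rw [h2]
      have h3 : 0 ≤ ∑ i : Fin 1, v (Sum.inr i) * v (Sum.inr i) :=
        Finset.sum_nonneg fun i _ => mul_self_nonneg _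
      linarith
  -- general weights of total mass one
  have hgen : ∀ (S : Fin m → Fin b) (u : (Fin m × Fin b → Bool) → ℝ), ∑ x, u x = 1 →
      (∑ x, u x • X x).PosSemidef → c₀ ≤ ∑ x, u x * ssum (rs S x) ^ 2 := by
    intro S u hu hpsd
    have h1 := mem_comb 𝓐 (fun x => (Matrix.vecMulVec (z x) (z x), X x)) hXA u hu
    have h2 : ∑ x, u x • (Matrix.vecMulVec (z x) (z x), X x)
        = (∑ x, u x • Matrix.vecMulVec (z x) (z x), ∑ x, u x • X x) := by
      rw [Prod.ext_iff]
      constructor
      · rw [Prod.fst_sum]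
        rfl
      · rw [Prod.snd_sum]
        rfl
    rw [h2] at h1
    have h3 := hno S _ _ hpsd h1 ?_ ?_
    · refine h3.trans (le_of_eq ?_)
      have h4 : ∀ i j : Fin m, (∑ x, u x • Matrix.vecMulVec (z x) (z x)) (e (i, S i)) (e (j, S j))
          = ∑ x, u x * (sg (x (i, S i)) * sg (x (j, S j))) := by
        intro i j
        rw [Matrix.sum_apply]
        refine Finset.sum_congr rfl fun x _ => ?_
        rw [Matrix.smul_apply, Matrix.vecMulVec_apply, hz, hz, smul_eq_mul]
      simp only [h4]
      have h5 : ∀ x : Fin m × Fin b → Bool, ssum (rs S x) ^ 2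
          = ∑ i, ∑ j, sg (x (i, S i)) * sg (x (j, S j)) := by
        intro x
        rw [sq, ssum, Finset.sum_mul_sum]
        rfl
      simp only [h5, Finset.mul_sum]
      have h6 : ∀ i : Fin m, ∑ j : Fin m, ∑ x : Fin m × Fin b → Bool,
          u x * (sg (x (i, S i)) * sg (x (j, S j)))
          = ∑ x : Fin m × Fin b → Bool, ∑ j : Fin m,
          u x * (sg (x (i, S i)) * sg (x (j, S j))) := fun i => Finset.sum_comm
      simp only [h6]
      exact Finset.sum_comm
    · unfold Matrix.IsSymm
      rw [Matrix.transpose_sum]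
      refine Finset.sum_congr rfl fun x _ => ?_
      rw [Matrix.transpose_smul, Matrix.transpose_vecMulVec]
    · intro i
      rw [Matrix.sum_apply]
      simp only [Matrix.smul_apply, Matrix.vecMulVec_apply, smul_eq_mul]
      rw [← hu]
      refine Finset.sum_congr rfl fun x _ => ?_
      rcases hz1 x i with h | h <;> rw [h] <;> ring
  have hmain : ∀ S : Fin m → Fin b, ∃ P : Matrix (Fin (r + 1)) (Fin (r + 1)) ℝ, P.PosSemidef ∧
      ∀ x, |(P * Z x).trace - (ssum (rs S x) ^ 2 - c₀)| ≤ τ := by
    intro S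
    let C : Set ((Fin m × Fin b → Bool) → ℝ) :=
      {u | ∃ P : Matrix (Fin (r + 1)) (Fin (r + 1)) ℝ, P.PosSemidef ∧ ∀ x, u x = (P * Z x).trace}
    have hadd : ∀ u ∈ C, ∀ v ∈ C, u + v ∈ C := by
      rintro u ⟨P, hP, hu⟩ v ⟨P', hP', hv⟩
      refine ⟨P + P', hP.add hP', fun x => ?_⟩
      rw [Pi.add_apply, hu, hv, Matrix.add_mul, Matrix.trace_add]
    have hsm : ∀ a : ℝ, 0 ≤ a → ∀ u ∈ C, a • u ∈ C := by
      rintro a ha u ⟨P, hP, hu⟩
      refine ⟨a • P, hP.smul ha, fun x => ?_⟩
      rw [Pi.smul_apply, hu, Matrix.smul_mul, Matrix.trace_smul]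
    rcases cone_sep C ⟨0, Matrix.PosSemidef.zero, by simp⟩ hadd hsm
        (fun x => ssum (rs S x) ^ 2 - c₀) τ hτ with ⟨u, ⟨P, hP, hPu⟩, hu⟩ | ⟨w, hw, hwl⟩
    · refine ⟨P, hP, fun x => ?_⟩
      rw [← hPu]
      exact hu x
    · exfalso
      -- the weighted sum is psd
      have hherm : (∑ x, w x • Z x).IsHermitian := by
        unfold Matrix.IsHermitian
        rw [Matrix.conjTranspose_sum]
        refine Finset.sum_congr rfl fun x _ => ?_
        rw [Matrix.conjTranspose_smul, (hZ x).isHermitian.eq]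
        simp
      have hpsd : (∑ x, w x • Z x).PosSemidef := by
        refine psd_of_trace _ hherm fun P hP => ?_
        have h1 := hw (fun x => (P * Z x).trace) ⟨P, hP, fun _ => rfl⟩
        have h2 : (P * ∑ x, w x • Z x).trace = ∑ x, w x * (P * Z x).trace := by
          rw [Matrix.mul_sum, Matrix.trace_sum]
          refine Finset.sum_congr rfl fun x _ => ?_
          rw [Matrix.mul_smul, Matrix.trace_smul, smul_eq_mul]
        rw [h2]
        exact h1
      have hXpsd : (∑ x, w x • X x).PosSemidef := by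
        have h1 := hpsd.submatrix (fun i : Fin r => finSumFinEquiv (Sum.inl i : Fin r ⊕ Fin 1))
        have h2 : (∑ x, w x • Z x).submatrix
            (fun i : Fin r => finSumFinEquiv (Sum.inl i : Fin r ⊕ Fin 1))
            (fun i : Fin r => finSumFinEquiv (Sum.inl i : Fin r ⊕ Fin 1))
            = ∑ x, w x • X x := by
          ext i j
          rw [Matrix.submatrix_apply, Matrix.sum_apply, Matrix.sum_apply]
          refine Finset.sum_congr rfl fun x _ => ?_
          simp only [Matrix.smul_apply, Z, Matrix.submatrix_apply, Equiv.symm_apply_apply,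
            Matrix.fromBlocks_apply₁₁]
        rwa [h2] at h1
      have hwpos : 0 ≤ ∑ x, w x := by
        have h1 := hpsd.diag_nonneg (i := finSumFinEquiv (Sum.inr 0 : Fin r ⊕ Fin 1))
        have h2 : (∑ x, w x • Z x) (finSumFinEquiv (Sum.inr 0 : Fin r ⊕ Fin 1))
            (finSumFinEquiv (Sum.inr 0 : Fin r ⊕ Fin 1)) = ∑ x, w x := by
          rw [Matrix.sum_apply]
          refine Finset.sum_congr rfl fun x _ => ?_
          simp only [Matrix.smul_apply, Z, Matrix.submatrix_apply, Equiv.symm_apply_apply,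
            Matrix.fromBlocks_apply₂₂, Matrix.one_apply_eq, smul_eq_mul, mul_one]
        rwa [h2] at h1
      have hexp : ∑ x, w x * (ssum (rs S x) ^ 2 - c₀)
          = ∑ x, w x * ssum (rs S x) ^ 2 - c₀ * ∑ x, w x := by
        rw [Finset.mul_sum, ← Finset.sum_sub_distrib]
        exact Finset.sum_congr rfl fun x _ => by ring
      rw [hexp] at hwl
      rcases hwpos.lt_or_eq with hW | hW
      · -- positive total weight
        have h1 := hgen S (fun x => (∑ y, w y)⁻¹ * w x)
          (by rw [← Finset.mul_sum]; exact inv_mul_cancel₀ hW.ne')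
          (by
            have h2 : ∑ x, ((∑ y, w y)⁻¹ * w x) • X x = (∑ y, w y)⁻¹ • ∑ x, w x • X x := by
              rw [Finset.smul_sum]
              exact Finset.sum_congr rfl fun x _ => by rw [smul_smul]
            rw [h2]
            exact hXpsd.smul (inv_nonneg.2 hW.le))
        have h2 : ∑ x, (∑ y, w y)⁻¹ * w x * ssum (rs S x) ^ 2
            = (∑ y, w y)⁻¹ * ∑ x, w x * ssum (rs S x) ^ 2 := by
          rw [Finset.mul_sum]
          exact Finset.sum_congr rfl fun x _ => by ring
        rw [h2, le_inv_mul_iff₀ hW] at h1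
        linarith
      · -- zero total weight
        rw [← hW, mul_zero, sub_zero] at hwl
        set A := ∑ x, w x * ssum (rs S x) ^ 2 with hA
        let x₀ : Fin m × Fin b → Bool := fun _ => false
        have key : ∀ lam : ℝ, 0 ≤ lam → c₀ ≤ ssum (rs S x₀) ^ 2 + lam * A := by
          intro lam hlam
          have h1 := hgen S (fun x => (if x = x₀ then 1 else 0) + lam * w x)
            (by rw [Finset.sum_add_distrib, ← Finset.mul_sum, ← hW]; simp)
            (by
              have h2 : ∑ x, ((if x = x₀ then (1 : ℝ) else 0) + lam * w x) • X x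
                  = X x₀ + lam • ∑ x, w x • X x := by
                simp only [add_smul, Finset.sum_add_distrib, ite_smul, one_smul, zero_smul,
                  Finset.sum_ite_eq', Finset.mem_univ, if_true]
                rw [Finset.smul_sum]
                simp only [smul_smul]
              rw [h2]
              exact (hX x₀).add (hXpsd.smul hlam))
          have h2 : ∑ x, ((if x = x₀ then (1 : ℝ) else 0) + lam * w x) * ssum (rs S x) ^ 2
              = ssum (rs S x₀) ^ 2 + lam * A := by
            simp only [add_mul, Finset.sum_add_distrib, ite_mul, one_mul, zero_mul,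
              Finset.sum_ite_eq', Finset.mem_univ, if_true]
            rw [hA, Finset.mul_sum]
            simp only [mul_assoc]
          rwa [h2] at h1
        have h3 := key ((|ssum (rs S x₀) ^ 2 - c₀| + 1) / (-A))
          (div_nonneg (by positivity) (by linarith))
        have h4 : (|ssum (rs S x₀) ^ 2 - c₀| + 1) / (-A) * A
            = -(|ssum (rs S x₀) ^ 2 - c₀| + 1) := by
          rw [div_mul_eq_mul_div, div_eq_iff (by linarith : -A ≠ 0)]
          ring
        rw [h4] at h3
        have h5 := le_abs_self (ssum (rs S x₀) ^ 2 - c₀)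
        linarith
  choose P hP hPM using hmain
  exact ⟨P, Z, hP, hZ, hPM⟩

end SDX
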